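import Mathlib
import Pool.Agent.H47.FNoeth

namespace Pool.Agent.Results.MP_f4ff42_al.NotFG

/-- right congruences -/
def RightCon {S : Type} [Semigroup S] (r : Setoid S) : Prop :=
  ∀ a b s : S, r a b → r (a * s) (b * s)

/-- every right congruence of finite index is the smallest one containing some finite set -/
def FNoetherian (S : Type) [Semigroup S] : Prop :=
  ∀ r : Setoid S, RightCon r → Finite (Quotient r) → ∃ X : Set (S × S), X.Finite ∧
    IsLeast {q : Setoid S | RightCon q ∧ ∀ p ∈ X, q p.1 p.2} r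

open Pool.Agent.H47.FNoeth in
theorem result : ∃ (T : Type) (_ : Semigroup T),
    (∀ x : T, ∃ (H : Type) (_ : Group H) (φ : H →ₙ* T), Function.Injective φ ∧ ∃ y, φ y = x) ∧
    FNoetherian T ∧ ¬ ∃ X : Set T, X.Finite ∧ Subsemigroup.closure X = ⊤ := by
  refine ⟨S, inferInstance, cr, fun r hr _ => ?_, fun ⟨X, h1, h2⟩ => not_fg X h1 h2⟩
  obtain ⟨X, h1, h2, h3⟩ := fnoeth r hr
  exact ⟨X, h1, ⟨hr, h2⟩, fun q hq x y => h3 q hq.1 hq.2 x y⟩

end Pool.Agent.Results.MP_f4ff42_al.NotFG
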